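import Pool.Agent.R420.RainbowJoinMain

/-!
# MP_38c8a2_co: the rainbow induced-subgraph number is not additive under join

`Pool.Agent.R420.RainbowJoin.Arrows G H`: every proper vertex colouring of `G` contains a rainbow
induced copy of `H`.  `rho H` is the least number of vertices of a graph arrowing `H`, and `join` is
the usual join of two graphs.

`HA` is a `K₄` on `1,2,3,4` with a vertex `0` adjacent to `1,2,3` and a pendant vertex `5` at `0`;
`HB` is a `K₄` on `1,2,3,4` with a vertex `0` adjacent to `3,4` and a pendant vertex `5` at `0`.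
Both have `rho = 9`, but `rho (join HA HB) ≤ 17`: there is an 8-vertex graph every colouring of which
has a rainbow `HA` or a rainbow `HB`, and a 9-vertex graph every colouring of which has both; their
join arrows `join HA HB`.
-/

namespace Pool.Agent.Results.MP_38c8a2_co.NotAdditive

open Pool.Agent.R420.RainbowJoin

theorem result :
    (∃ H₁ H₂ : SimpleGraph (Fin 6), rho H₁ = 9 ∧ rho H₂ = 9 ∧
      (∃ G : SimpleGraph (Fin 17), Arrows G (join H₁ H₂)) ∧
      rho (join H₁ H₂) < rho H₁ + rho H₂) ∧
    ¬ (∀ (V W : Type) [Finite V] [Finite W] (H₁ : SimpleGraph V) (H₂ : SimpleGraph W),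
        rho (join H₁ H₂) = rho H₁ + rho H₂) := by
  have h1 := rho_HA
  have h2 := rho_HB
  have h3 := rho_join
  refine ⟨⟨HA, HB, h1, h2, exists_arrows_join, by omega⟩, ?_⟩
  intro h
  have := h (Fin 6) (Fin 6) HA HB
  omega

end Pool.Agent.Results.MP_38c8a2_co.NotAdditive
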